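import Pool.Agent.Helper17.RES.Defs
import Pool.Agent.Helper85.D4.Th

/-!
# Project D4, S_RES: the extension of a 1-form of `K` to `K(t 1, …, t p)`
-/

set_option autoImplicit false

namespace Pool.Agent.Helper85.RES

open Module Pool.Agent.Helper37.SD Pool.Agent.Helper20.TS Pool.Agent.Helper88.D4
open Pool.Agent.Helper12.D4 Pool.Agent.Helper85.D4 Pool.Agent.Helper17.RES

variable {K : Type} [Field K] [Algebra ℂ K]

/-- A derivation of `K` with values in a vector space in a frame. -/
theorem ext_apply {M : Type} [AddCommGroup M] [Module ℂ M] [Module K M] [IsScalarTower ℂ K M]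
    {J : Bra K} (hA : IsAlt J) (ht : Algebra.trdeg ℂ K = 4) {x : Fin 4 → K}
    (hx : brk J x ≠ 0) (Δ : Derivation ℂ K M) (f : K) :
    Δ f = ∑ k, dfr J x k f • Δ (x k) := by
  rw [← sub_eq_zero, ← Module.forall_dual_apply_eq_zero_iff K]
  intro l
  have h1 := frame_apply hA ht hx (l.compDer Δ) f
  have h2 : ∀ g, (l.compDer Δ) g = l (Δ g) := fun g => rfl
  rw [h2, Finset.sum_congr rfl fun k _ => by rw [h2]] at h1
  rw [map_sub, h1, map_sum, sub_eq_zero]
  refine Finset.sum_congr rfl fun k _ => ?_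
  rw [map_smul, smul_eq_mul, mul_comm]

/-- `ext_apply` for a derivation of `K(t)`. -/
theorem der_coe {p : ℕ} {J : Bra K} (hA : IsAlt J) (ht : Algebra.trdeg ℂ K = 4) {x : Fin 4 → K}
    (hx : brk J x ≠ 0) (D : Derivation ℂ (KK K p) (KK K p)) (f : K) :
    D (algebraMap K (KK K p) f) =
      ∑ k, algebraMap K (KK K p) (dfr J x k f) * D (algebraMap K (KK K p) (x k)) := by
  have h1 := ext_apply hA ht hx (D.compAlgebraMap K) f
  have h2 : ∀ g, (D.compAlgebraMap K) g = D (algebraMap K (KK K p) g) := fun g => rfl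
  rw [h2] at h1
  rw [h1]
  refine Finset.sum_congr rfl fun k _ => ?_
  rw [h2, Algebra.smul_def]

/-- The extended form: `D ↦ ∑ η(E_k) D(x_k) - c₀ D(s)/s - ∑ d_i D(t_i)/t_i`. -/
noncomputable def etaP {p : ℕ} (J : Bra K) (x : Fin 4 → K) (η : Helper88.D4.One K) (s : K) (c₀ : ℂ)
    (d : Fin p → ℂ) : Helper88.D4.One (KK K p) where
  toFun := fun D => ∑ k, algebraMap K (KK K p) (η (dfr J x k)) * D (algebraMap K (KK K p) (x k)) -
    algebraMap ℂ (KK K p) c₀ * (D (algebraMap K (KK K p) s) / algebraMap K (KK K p) s) -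
    ∑ i, algebraMap ℂ (KK K p) (d i) * (D (tt K i) / tt K i)
  map_add' := fun D D' => by
    simp only [Derivation.add_apply, mul_add, add_div, Finset.sum_add_distrib]
    ring
  map_smul' := fun a D => by
    simp only [Derivation.smul_apply, smul_eq_mul, RingHom.id_apply]
    rw [mul_sub, mul_sub, Finset.mul_sum, Finset.mul_sum]
    congr 1
    · congr 1
      · exact Finset.sum_congr rfl fun k _ => by ring
      · ring
    · exact Finset.sum_congr rfl fun i _ => by ring

theorem etaP_apply {p : ℕ} (J : Bra K) (x : Fin 4 → K) (η : Helper88.D4.One K) (s : K) (c₀ : ℂ)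
    (d : Fin p → ℂ) (D : Derivation ℂ (KK K p) (KK K p)) : etaP J x η s c₀ d D =
    ∑ k, algebraMap K (KK K p) (η (dfr J x k)) * D (algebraMap K (KK K p) (x k)) -
      algebraMap ℂ (KK K p) c₀ * (D (algebraMap K (KK K p) s) / algebraMap K (KK K p) s) -
      ∑ i, algebraMap ℂ (KK K p) (d i) * (D (tt K i) / tt K i) := rfl

/-- The value of a 1-form in a frame. -/
theorem one_apply {J : Bra K} (hA : IsAlt J) (ht : Algebra.trdeg ℂ K = 4) {x : Fin 4 → K}
    (hx : brk J x ≠ 0) (η : Helper88.D4.One K) (D : Derivation ℂ K K) :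
    η D = ∑ k, η (dfr J x k) * D (x k) := by
  conv_lhs => rw [dfr_sum hA ht hx D]
  rw [map_sum]
  refine Finset.sum_congr rfl fun k _ => ?_
  rw [map_smul, smul_eq_mul, mul_comm]

/-- The extended form does not depend on the frame. -/
theorem frame_indep {p : ℕ} {J : Bra K} (hA : IsAlt J) (ht : Algebra.trdeg ℂ K = 4)
    {x y : Fin 4 → K} (hx : brk J x ≠ 0) (hy : brk J y ≠ 0) (η : Helper88.D4.One K)
    (D : Derivation ℂ (KK K p) (KK K p)) :
    ∑ k, algebraMap K (KK K p) (η (dfr J x k)) * D (algebraMap K (KK K p) (x k)) =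
      ∑ k, algebraMap K (KK K p) (η (dfr J y k)) * D (algebraMap K (KK K p) (y k)) := by
  have h1 : ∀ k, algebraMap K (KK K p) (η (dfr J x k)) * D (algebraMap K (KK K p) (x k)) =
      ∑ l, algebraMap K (KK K p) (η (dfr J x k) * dfr J y l (x k)) *
        D (algebraMap K (KK K p) (y l)) := by
    intro k
    rw [der_coe hA ht hy D (x k), Finset.mul_sum]
    refine Finset.sum_congr rfl fun l _ => ?_
    rw [map_mul]
    ring
  rw [Finset.sum_congr rfl fun k _ => h1 k, Finset.sum_comm]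
  refine Finset.sum_congr rfl fun l _ => ?_
  rw [← Finset.sum_mul, ← map_sum, ← one_apply hA ht hx η (dfr J y l)]

theorem etaP_indep {p : ℕ} {J : Bra K} (hA : IsAlt J) (ht : Algebra.trdeg ℂ K = 4)
    {x y : Fin 4 → K} (hx : brk J x ≠ 0) (hy : brk J y ≠ 0) (η : Helper88.D4.One K) (s : K)
    (c₀ : ℂ) (d : Fin p → ℂ) : etaP J x η s c₀ d = etaP J y η s c₀ d := by
  ext D
  rw [etaP_apply, etaP_apply, frame_indep hA ht hx hy η D]

/-- The value at an extension of a derivation of `K`. -/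
theorem etaP_ext {p : ℕ} {J : Bra K} (hA : IsAlt J) (ht : Algebra.trdeg ℂ K = 4)
    {x : Fin 4 → K} (hx : brk J x ≠ 0) (η : Helper88.D4.One K) (s : K) (c₀ : ℂ) (d : Fin p → ℂ)
    (H : Derivation ℂ K K) (H' : Derivation ℂ (KK K p) (KK K p))
    (hH : ∀ f, H' (algebraMap K (KK K p) f) = algebraMap K (KK K p) (H f)) (ρ : Fin p → ℂ)
    (hρ : ∀ i, H' (tt K i) = ρ i • tt K i) :
    etaP J x η s c₀ d H' = algebraMap K (KK K p) (η H - c₀ • (H s / s)) -
      algebraMap ℂ (KK K p) (∑ i, d i * ρ i) := by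
  rw [etaP_apply, hH s]
  have h1 : ∑ k, algebraMap K (KK K p) (η (dfr J x k)) * H' (algebraMap K (KK K p) (x k)) =
      algebraMap K (KK K p) (η H) := by
    rw [one_apply hA ht hx η H, map_sum]
    refine Finset.sum_congr rfl fun k _ => ?_
    rw [hH, map_mul]
  have h2 : ∑ i, algebraMap ℂ (KK K p) (d i) * (H' (tt K i) / tt K i) =
      algebraMap ℂ (KK K p) (∑ i, d i * ρ i) := by
    rw [map_sum]
    refine Finset.sum_congr rfl fun i _ => ?_
    rw [hρ i, Algebra.smul_def, mul_div_assoc, div_self (tt_ne_zero i), mul_one, map_mul]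
  rw [h1, h2, map_sub, Algebra.smul_def, map_mul, map_div₀, ← algebraMap_eq]

/-- The invariance of the extended form. -/
theorem etaP_inv {p : ℕ} {J : Bra K} (hA : IsAlt J) (ht : Algebra.trdeg ℂ K = 4)
    {x : Fin 4 → K} (hx : brk J x ≠ 0) (η : Helper88.D4.One K) (s : K) (hs : s ≠ 0) (c₀ : ℂ)
    (d : Fin p → ℂ) (H : Derivation ℂ K K) (H' : Derivation ℂ (KK K p) (KK K p))
    (hH : ∀ f, H' (algebraMap K (KK K p) f) = algebraMap K (KK K p) (H f)) (ρ : Fin p → ℂ)
    (hρ : ∀ i, H' (tt K i) = ρ i • tt K i) (χ : ℂ) (hχ : H s = χ • s)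
    (hinv : ∀ D, H (η D) = η ⁅H, D⁆) (D : Derivation ℂ (KK K p) (KK K p)) :
    H' (etaP J x η s c₀ d D) = etaP J x η s c₀ d ⁅H', D⁆ := by
  have hs' : algebraMap K (KK K p) s ≠ 0 := (map_ne_zero _).mpr hs
  -- logarithmic terms
  have hlog : ∀ (y : KK K p) (c : ℂ), y ≠ 0 → H' y = c • y →
      H' (D y / y) = ⁅H', D⁆ y / y := by
    intro y c hy hc
    rw [Derivation.commutator_apply, quot H' (D y) y hy, hc, Derivation.map_smul,
      div_eq_div_iff (pow_ne_zero 2 hy) hy]
    simp only [Algebra.smul_def]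
    ring
  have hc : ∀ c : ℂ, H' (algebraMap ℂ (KK K p) c) = 0 := fun c => H'.map_algebraMap c
  have hmulc : ∀ (c : ℂ) (y : KK K p), H' (algebraMap ℂ (KK K p) c * y) =
      algebraMap ℂ (KK K p) c * H' y := by
    intro c y
    rw [Derivation.leibniz, hc, smul_zero, add_zero, smul_eq_mul]
  have hHs : H' (algebraMap K (KK K p) s) = χ • algebraMap K (KK K p) s := by
    rw [hH, hχ, Algebra.smul_def, map_mul, ← algebraMap_eq, Algebra.smul_def]
  rw [etaP_apply, etaP_apply, map_sub, map_sub, hmulc, hlog _ χ hs' hHs]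
  have h3 : H' (∑ i, algebraMap ℂ (KK K p) (d i) * (D (tt K i) / tt K i)) =
      ∑ i, algebraMap ℂ (KK K p) (d i) * (⁅H', D⁆ (tt K i) / tt K i) := by
    rw [map_sum]
    refine Finset.sum_congr rfl fun i _ => ?_
    rw [hmulc, hlog _ (ρ i) (tt_ne_zero i) (hρ i)]
  rw [h3]
  congr 2
  -- the main term
  have hE : ∀ l, H (η (dfr J x l)) = -∑ k, η (dfr J x k) * dfr J x l (H (x k)) := by
    intro l
    rw [hinv, one_apply hA ht hx η ⁅H, dfr J x l⁆, ← Finset.sum_neg_distrib]
    refine Finset.sum_congr rfl fun k _ => ?_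
    rw [Derivation.commutator_apply, dfr_apply hA hx]
    have h4 : H (if l = k then (1 : K) else 0) = 0 := by
      split_ifs
      · exact H.map_one_eq_zero
      · exact map_zero H
    rw [h4]
    ring
  have h5 : H' (∑ k, algebraMap K (KK K p) (η (dfr J x k)) * D (algebraMap K (KK K p) (x k))) =
      ∑ k, algebraMap K (KK K p) (η (dfr J x k)) * H' (D (algebraMap K (KK K p) (x k))) +
      ∑ k, algebraMap K (KK K p) (H (η (dfr J x k))) * D (algebraMap K (KK K p) (x k)) := by
    rw [map_sum, ← Finset.sum_add_distrib]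
    refine Finset.sum_congr rfl fun k _ => ?_
    rw [Derivation.leibniz, hH, smul_eq_mul, smul_eq_mul]
    ring
  have h6 : ∑ k, algebraMap K (KK K p) (η (dfr J x k)) *
      ⁅H', D⁆ (algebraMap K (KK K p) (x k)) =
      ∑ k, algebraMap K (KK K p) (η (dfr J x k)) * H' (D (algebraMap K (KK K p) (x k))) -
      ∑ k, algebraMap K (KK K p) (η (dfr J x k)) * D (algebraMap K (KK K p) (H (x k))) := by
    rw [← Finset.sum_sub_distrib]
    refine Finset.sum_congr rfl fun k _ => ?_
    rw [Derivation.commutator_apply, hH]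
    ring
  have h7 : ∑ k, algebraMap K (KK K p) (η (dfr J x k)) * D (algebraMap K (KK K p) (H (x k))) =
      ∑ l, (∑ k, algebraMap K (KK K p) (η (dfr J x k) * dfr J x l (H (x k)))) *
        D (algebraMap K (KK K p) (x l)) := by
    have h8 : ∀ k, algebraMap K (KK K p) (η (dfr J x k)) * D (algebraMap K (KK K p) (H (x k))) =
        ∑ l, algebraMap K (KK K p) (η (dfr J x k) * dfr J x l (H (x k))) *
          D (algebraMap K (KK K p) (x l)) := by
      intro k
      rw [der_coe hA ht hx D (H (x k)), Finset.mul_sum]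
      refine Finset.sum_congr rfl fun l _ => ?_
      rw [map_mul]
      ring
    rw [Finset.sum_congr rfl fun k _ => h8 k, Finset.sum_comm]
    refine Finset.sum_congr rfl fun l _ => ?_
    rw [Finset.sum_mul]
  rw [h5, h6, h7, sub_eq_add_neg, ← Finset.sum_neg_distrib]
  congr 1
  refine Finset.sum_congr rfl fun l _ => ?_
  rw [hE l, map_neg, map_sum]
  ring

end Pool.Agent.Helper85.RES
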